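import Pool.Agent.U856.BM.Stm2

/-!
# Project BM, package LN: the link between the chords and the flow
-/

set_option autoImplicit false

open Set Filter Topology ComplexConjugate

namespace Pool.Agent.U57.BM.LN

open Pool.Agent.U856.BM Relation

theorem dt_add_right (z w w' : ℂ) : dt z (w + w') = dt z w + dt z w' := by
  simp only [dt, Complex.add_re, Complex.add_im]; ring

theorem dt_sub_right (z w w' : ℂ) : dt z (w - w') = dt z w - dt z w' := by
  simp only [dt, Complex.sub_re, Complex.sub_im]; ring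

theorem dt_smul_right (z w : ℂ) (r : ℝ) : dt z (r • w) = r * dt z w := by
  simp only [dt, Complex.real_smul, Complex.mul_re, Complex.mul_im, Complex.ofReal_re,
    Complex.ofReal_im]; ring

theorem cr_add_right (z w w' : ℂ) : cr z (w + w') = cr z w + cr z w' := by
  simp only [cr, Complex.add_re, Complex.add_im]; ring

theorem cr_sub_right (z w w' : ℂ) : cr z (w - w') = cr z w - cr z w' := by
  simp only [cr, Complex.sub_re, Complex.sub_im]; ring

theorem cr_smul_right (z w : ℂ) (r : ℝ) : cr z (r • w) = r * cr z w := by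
  simp only [cr, Complex.real_smul, Complex.mul_re, Complex.mul_im, Complex.ofReal_re,
    Complex.ofReal_im]; ring

theorem cr_self (z : ℂ) : cr z z = 0 := by simp only [cr]; ring

theorem G_add (i : St) (x y : ℂ) : G i (x + y) = G i x + G i y := by
  unfold G; split_ifs
  · ring
  · rw [map_add]; ring

theorem G_sub (i : St) (x y : ℂ) : G i (x - y) = G i x - G i y := by
  unfold G; split_ifs
  · ring
  · rw [map_sub]; ring

theorem G_smul (i : St) (r : ℝ) (x : ℂ) : G i (r • x) = r • G i x := by
  unfold G; split_ifs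
  · simp only [Complex.real_smul]; ring
  · simp only [Complex.real_smul, map_mul, Complex.conj_ofReal]; ring

theorem nsq {w : ℂ} (hw : ‖w‖ = 1) : w.re ^ 2 + w.im ^ 2 = 1 := by
  have h := Complex.sq_norm w
  rw [hw, Complex.normSq_apply] at h
  nlinarith [h]

theorem dt_G {i : St} (hi : ‖i.1‖ = 1) (x y : ℂ) : dt (G i x) (G i y) = dt x y := by
  have hw := nsq hi
  unfold G
  split_ifs
  · simp only [dt, Complex.mul_re, Complex.mul_im]
    linear_combination (x.re * y.re + x.im * y.im) * hw
  · simp only [dt, Complex.mul_re, Complex.mul_im, Complex.conj_re, Complex.conj_im]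
    linear_combination (x.re * y.re + x.im * y.im) * hw

theorem conj_mul_self {w : ℂ} (hw : ‖w‖ = 1) : w * conj w = 1 := by
  rw [Complex.mul_conj, Complex.normSq_eq_norm_sq, hw]; norm_num

theorem G_dir {i : St} (hi : ‖i.1‖ = 1) (a b : ℝ) : G i (dir a b i) = dd a b := by
  have hw := conj_mul_self hi
  unfold G dir
  split_ifs
  · rw [← mul_assoc, hw, one_mul]
  · rw [map_mul, Complex.conj_conj, ← mul_assoc, hw, one_mul]

theorem G_inj {i : St} (hi : ‖i.1‖ = 1) {x y : ℂ} (h : G i x = G i y) : x = y := by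
  have h0 : i.1 ≠ 0 := by
    intro h0
    rw [h0, norm_zero] at hi
    exact zero_ne_one hi
  unfold G at h
  have h1 := mul_left_cancel₀ h0 h
  split_ifs at h1
  · exact h1
  · exact (starRingEnd ℂ).injective h1

theorem G_rs (α : ℝ) (j : Fin 5) (i : St) (x : ℂ) (hn : dt (nS α j) (nS α j) = 1) :
    G (rs α j i) x = G i (rf (nS α j) x) := by
  unfold G rs
  obtain ⟨w, τ⟩ := i
  generalize nS α j = n at hn
  have h1 : conj n * n = 1 := by
    apply Complex.ext
    · simp only [Complex.mul_re, Complex.conj_re, Complex.conj_im, Complex.one_re]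
      unfold dt at hn
      linarith
    · simp only [Complex.mul_im, Complex.conj_re, Complex.conj_im, Complex.one_im]
      ring
  have h2 : rf n x = - (n ^ 2 * conj x) := by
    have h3 : ((2 * dt n x : ℝ) : ℂ) = n * conj x + conj n * x := by
      apply Complex.ext
      · simp only [dt, Complex.ofReal_re, Complex.add_re, Complex.mul_re, Complex.conj_re, Complex.conj_im]
        ring
      · simp only [Complex.ofReal_im, Complex.add_im, Complex.mul_im, Complex.conj_re, Complex.conj_im]
        ring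
    unfold rf
    rw [Complex.real_smul, h3]
    linear_combination (-x) * h1
  rw [h2]
  cases τ
  · simp only [Bool.false_eq_true, if_false, Bool.not_false, if_true, map_neg, map_mul, map_pow,
      Complex.conj_conj]
    ring
  · simp only [if_true, Bool.not_true, Bool.false_eq_true, if_false]
    ring

theorem rf_rf {n : ℂ} (hn : dt n n = 1) (e : ℂ) : rf n (rf n e) = e := by
  unfold rf
  rw [dt_sub_right, dt_smul_right, hn]
  simp only [Complex.real_smul]
  push_cast
  ring

theorem norm_rs {α : ℝ} {j : Fin 5} {i : St} (hi : ‖i.1‖ = 1) (hn : ‖nS α j‖ = 1) :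
    ‖(rs α j i).1‖ = 1 := by
  unfold rs
  simp only
  rw [norm_neg, norm_mul, hi, one_mul]
  split_ifs
  · rw [norm_pow, hn, one_pow]
  · rw [Complex.norm_conj, norm_pow, hn, one_pow]

theorem dt_nS (α : ℝ) (j : Fin 5) : dt (nS α j) (nS α j) = 1 := by
  fin_cases j <;> simp [nS, dt]
  nlinarith [Real.sin_sq_add_cos_sq α]

theorem norm_of_dt {n : ℂ} (h : dt n n = 1) : ‖n‖ = 1 := by
  have h1 := Complex.sq_norm n
  rw [Complex.normSq_apply] at h1
  unfold dt at h
  rw [h] at h1
  nlinarith [norm_nonneg n]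

theorem dir_rs {α : ℝ} {j : Fin 5} {i : St} (hi : ‖i.1‖ = 1) (a b : ℝ) :
    dir a b (rs α j i) = rf (nS α j) (dir a b i) := by
  have h1 := norm_rs (α := α) (j := j) hi (norm_of_dt (dt_nS α j))
  apply G_inj h1
  rw [G_dir h1, G_rs α j i _ (dt_nS α j), rf_rf (dt_nS α j), G_dir hi]

theorem dt_dd {a b : ℝ} (h : 0 < a ^ 2 + b ^ 2) : dt (dd a b) (dd a b) = 1 := by
  unfold dt dd
  simp only
  have h1 : √(a ^ 2 + b ^ 2) ^ 2 = a ^ 2 + b ^ 2 := Real.sq_sqrt h.le
  have h2 : √(a ^ 2 + b ^ 2) ≠ 0 := (Real.sqrt_pos.2 h).ne'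
  field_simp
  linarith

theorem decomp {d x : ℂ} (hd : dt d d = 1) (h : cr d x = 0) : x = (dt d x) • d := by
  unfold dt cr at *
  apply Complex.ext
  · simp only [Complex.real_smul, Complex.mul_re, Complex.ofReal_re, Complex.ofReal_im]
    linear_combination (-x.re) * hd - d.im * h
  · simp only [Complex.real_smul, Complex.mul_im, Complex.ofReal_re, Complex.ofReal_im]
    linear_combination (-x.im) * hd + d.re * h

/-- two points with the same transversal coordinate -/
theorem on_chord {a b : ℝ} (h : 0 < a ^ 2 + b ^ 2) {i : St} (hi : ‖i.1‖ = 1) {p w : ℂ}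
    (hu : uu a b i p = uu a b i w) : p = w + (tt a b i p - tt a b i w) • dir a b i := by
  unfold uu at hu
  unfold tt
  have h1 : cr (dd a b) (G i (p - w)) = 0 := by
    rw [G_sub, cr_sub_right, hu, sub_self]
  have h2 := decomp (dt_dd h) h1
  have h3 : G i (p - w) = G i ((dt (dd a b) (G i (p - w))) • dir a b i) := by
    rw [G_smul, G_dir hi]
    exact h2
  have h4 := G_inj hi h3
  rw [G_sub, dt_sub_right] at h4
  rw [← h4]
  ring

/-- the segment between a point of the table and an interior point -/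
theorem seg {a b v α : ℝ} (hI : ∀ z : ℂ, z ∈ interior (Tb a b v α) ↔ ∀ j : Fin 5, dt (nS α j) z < oS a b v j)
    {w e : ℂ} {τ : ℝ} (hτ : 0 < τ) (hw : w ∈ Tb a b v α) (hy : w + τ • e ∈ interior (Tb a b v α)) :
    ∀ r ∈ Ioc 0 τ, w + r • e ∈ interior (Tb a b v α) := by
  intro r hr
  rw [hI] at hy ⊢
  intro j
  have h1 := hw j
  have h2 := hy j
  rw [dt_add_right, dt_smul_right] at h2 ⊢
  have hr0 : 0 < r := hr.1
  have hr1 : r ≤ τ := hr.2
  have h3 : τ * (dt (nS α j) w + r * dt (nS α j) e) < τ * oS a b v j := by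
    have h4 : r * (dt (nS α j) w + τ * dt (nS α j) e) < r * oS a b v j := mul_lt_mul_of_pos_left h2 hr0
    have h5 : (τ - r) * dt (nS α j) w ≤ (τ - r) * oS a b v j :=
      mul_le_mul_of_nonneg_left h1 (by linarith)
    nlinarith
  exact lt_of_mul_lt_mul_left h3 hτ.le

theorem sin_cos {a b v α : ℝ} (h : Ok a b v α) : 1 / 2 < Real.sin α ∧ 1 / 2 < Real.cos α := by
  obtain ⟨-, -, -, -, -, -, h1, h2⟩ := h
  constructor
  · have h3 : α - α ^ 3 / 6 < Real.sin α := Real.sin_gt_sub_cube (by linarith)
    have h4 : 1 / 2 < α - α ^ 3 / 6 := by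
      have h5 : α ^ 2 < 0.7 := by nlinarith
      nlinarith [mul_pos (show (0 : ℝ) < α by linarith) (show (0 : ℝ) < 0.7 - α ^ 2 by linarith)]
    linarith
  · have h3 := Real.one_sub_sq_div_two_le_cos (x := α)
    nlinarith

/-- the distances of the vertices from the sides -/
noncomputable def MM (a b v α : ℝ) : Fin 5 → Fin 5 → ℝ :=
  ![![0, 0, a, a, a - v / Real.sin α], ![b, 0, 0, b - v / Real.cos α, b], ![a, a, 0, 0, v / Real.sin α],
    ![a * Real.sin α - v, a * Real.sin α + b * Real.cos α - v, b * Real.cos α - v, 0, 0],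
    ![0, b, b, v / Real.cos α, 0]]

theorem dist_eq {a b v α : ℝ} (hs0 : Real.sin α ≠ 0) (hc0 : Real.cos α ≠ 0) (k j : Fin 5) :
    dt (nS α k) (vS a b v α j) = oS a b v k - MM a b v α k j := by
  have hs1 : Real.sin α * (v / Real.sin α) = v := mul_div_cancel₀ _ hs0
  have hc1 : Real.cos α * (v / Real.cos α) = v := mul_div_cancel₀ _ hc0
  fin_cases k <;> fin_cases j <;> simp [nS, vS, oS, dt, MM, hs1, hc1] <;> ring

/-- the vertices -/
theorem vert {a b v α : ℝ} (h : Ok a b v α) (j : Fin 5) :
    dt (nS α j) (vS a b v α j) = oS a b v j ∧ dt (nS α j) (vS a b v α (j + 1)) = oS a b v j ∧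
    ∀ k : Fin 5, k ≠ j → dt (nS α k) (vS a b v α j) ≤ oS a b v k ∧
      dt (nS α k) (vS a b v α (j + 1)) ≤ oS a b v k ∧
      (dt (nS α k) (vS a b v α j) < oS a b v k ∨ dt (nS α k) (vS a b v α (j + 1)) < oS a b v k) := by
  obtain ⟨hs, hc⟩ := sin_cos h
  obtain ⟨h1, h2, h3, h4, h5, h6, h7, h8⟩ := h
  have hs0 : Real.sin α ≠ 0 := by linarith
  have hc0 : Real.cos α ≠ 0 := by linarith
  have hs2 : 0 < v / Real.sin α := div_pos (by linarith) (by linarith)
  have hc2 : 0 < v / Real.cos α := div_pos (by linarith) (by linarith)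
  have hs3 : v / Real.sin α < 1 / 2 := by
    rw [div_lt_iff₀ (by linarith)]; linarith
  have hc3 : v / Real.cos α < 1 / 2 := by
    rw [div_lt_iff₀ (by linarith)]; linarith
  have hsa : v < a * Real.sin α := by nlinarith
  have hcb : v < b * Real.cos α := by nlinarith
  have ha : 0 < a := by linarith
  have hb : 0 < b := by linarith
  have e1 : a - v / Real.sin α > 0 := by linarith
  have e2 : b - v / Real.cos α > 0 := by linarith
  have e3 : a * Real.sin α - v > 0 := by linarith
  have e4 : b * Real.cos α - v > 0 := by linarith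
  have e5 : a * Real.sin α + b * Real.cos α - v > 0 := by nlinarith
  have key : MM a b v α j j = 0 ∧ MM a b v α j (j + 1) = 0 ∧ ∀ k : Fin 5, k ≠ j →
      0 ≤ MM a b v α k j ∧ 0 ≤ MM a b v α k (j + 1) ∧ (0 < MM a b v α k j ∨ 0 < MM a b v α k (j + 1)) := by
    fin_cases j
    all_goals
      refine ⟨by simp [MM], by simp [MM], fun k hk => ?_⟩
      fin_cases k <;> simp [MM] at hk ⊢ <;> constructorm* _ ∧ _ <;>
        first | linarith | (left; linarith)
  simp only [dist_eq hs0 hc0]
  refine ⟨by linarith [key.1], by linarith [key.2.1], fun k hk => ?_⟩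
  obtain ⟨k1, k2, k3⟩ := key.2.2 k hk
  refine ⟨by linarith, by linarith, ?_⟩
  rcases k3 with k3 | k3
  · left; linarith
  · right; linarith

theorem vert_mem {a b v α : ℝ} (h : Ok a b v α) (j : Fin 5) : vS a b v α j ∈ Tb a b v α := by
  obtain ⟨h1, -, h2⟩ := vert h j
  intro k
  by_cases hk : k = j
  · rw [hk, h1]
  · exact (h2 k hk).1

/-- The exit point. -/
theorem exit_pt {a b v α : ℝ} (h : Ok a b v α) {i : St} {u : ℝ} {j : Fin 5} (hE : Exit a b v α i u j) :
    ∃ w : ℂ, uu a b i w = u ∧ dt (nS α j) w = oS a b v j ∧ ∀ k : Fin 5, k ≠ j → dt (nS α k) w < oS a b v k := by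
  obtain ⟨-, h1, h2⟩ := hE
  obtain ⟨h3, h4, h5⟩ := vert h j
  set p := vS a b v α j
  set q := vS a b v α (j + 1)
  set A := uu a b i p with hA
  set B := uu a b i q with hB
  have hAB : A ≠ B := by
    intro hAB
    rw [hAB, min_self] at h1
    rw [hAB, max_self] at h2
    linarith
  have hl : ∃ l : ℝ, 0 < l ∧ l < 1 ∧ A + l * (B - A) = u := by
    have hBA : B - A ≠ 0 := sub_ne_zero.2 (Ne.symm hAB)
    refine ⟨(u - A) / (B - A), ?_, ?_, ?_⟩
    · rcases lt_or_gt_of_ne hAB with h6 | h6
      · rw [min_eq_left h6.le] at h1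
        exact div_pos (by linarith) (by linarith)
      · rw [max_eq_left h6.le] at h2
        exact div_pos_of_neg_of_neg (by linarith) (by linarith)
    · rcases lt_or_gt_of_ne hAB with h6 | h6
      · rw [max_eq_right h6.le] at h2
        rw [div_lt_one (by linarith)]
        linarith
      · rw [min_eq_right h6.le] at h1
        rw [div_lt_one_of_neg (by linarith)]
        linarith
    · field_simp
      ring
  obtain ⟨l, hl0, hl1, hl2⟩ := hl
  refine ⟨p + l • (q - p), ?_, ?_, fun k hk => ?_⟩
  · rw [← hl2, hA, hB]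
    unfold uu
    rw [G_add, G_smul, G_sub, cr_add_right, cr_smul_right, cr_sub_right]
  · rw [dt_add_right, dt_smul_right, dt_sub_right, h3, h4]
    ring
  · obtain ⟨k1, k2, k3⟩ := h5 k hk
    rw [dt_add_right, dt_smul_right, dt_sub_right]
    rcases k3 with k3 | k3
    · nlinarith
    · nlinarith

theorem t_LN : S_LN := by
  intro _ hSD _ a b v α h q hR z hz
  have hOk : Ok a b v α := hR.1
  obtain ⟨hI, hS, -⟩ := hSD a b v α hOk
  obtain ⟨hs, hc⟩ := sin_cos hOk
  have ha : 0 < a := by linarith [hOk.1]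
  have hb : 0 < b := by linarith [hOk.2.2.1]
  have hab : 0 < a ^ 2 + b ^ 2 := by positivity
  have hi0 : ‖(i0 α).1‖ = 1 := by
    refine norm_rs ?_ (norm_of_dt (dt_nS α 3))
    simp
  -- the direction of the separatrix
  have hes : dir a b (i0 α) = es a b α := by
    unfold i0 es
    rw [dir_rs (by simp)]
    congr 1
    unfold dir
    simp
  suffices H : ‖z.1.1‖ = 1 ∧ ∀ y : ℂ, y ∈ interior (Tb a b v α) → uu a b z.1 y = z.2.1 →
      Sep a b v α (z.2.2 + tt a b z.1 y) y (dir a b z.1) from H.2
  induction hz with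
  | refl =>
    refine ⟨hi0, fun y hy hu => ?_⟩
    have h1 : y = VV v α + (tt a b (i0 α) y - tt a b (i0 α) (VV v α)) • dir a b (i0 α) :=
      on_chord hab hi0 hu
    rw [hes] at h1
    set τ := tt a b (i0 α) y - tt a b (i0 α) (VV v α) with hτ
    have hV : VV v α ∈ Tb a b v α := vert_mem hOk 4
    have hV3 : dt (nS α 3) (VV v α) = -v := by
      have := (vert hOk 3).2.1
      exact this
    have hes3 : dt (nS α 3) (es a b α) < 0 := by
      have h2 : dt (nS α 3) (es a b α) = - dt (nS α 3) (dd a b) := by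
        unfold es rf
        rw [dt_sub_right, dt_smul_right, dt_nS]
        ring
      rw [h2]
      have h3 : 0 < dt (nS α 3) (dd a b) := by
        have h4 : 0 < √(a ^ 2 + b ^ 2) := Real.sqrt_pos.2 hab
        have h5 : dt (nS α 3) (dd a b) = Real.sin α * (a / √(a ^ 2 + b ^ 2)) +
            Real.cos α * (b / √(a ^ 2 + b ^ 2)) := rfl
        rw [h5]
        have h6 : 0 < Real.sin α := by linarith
        have h7 : 0 < Real.cos α := by linarith
        positivity
      linarith
    have hτ0 : 0 < τ := by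
      have h2 := (hI y).1 hy 3
      rw [h1, dt_add_right, dt_smul_right, hV3] at h2
      have h3 : oS a b v 3 = -v := rfl
      rw [h3] at h2
      have h4 : τ * dt (nS α 3) (es a b α) < 0 := by linarith
      by_contra hn
      have h5 : 0 ≤ τ * dt (nS α 3) (es a b α) :=
        mul_nonneg_of_nonpos_of_nonpos (not_lt.1 hn) hes3.le
      linarith
    have hy' := hy
    rw [h1] at hy'
    refine ⟨τ, hτ0, seg hI hτ0 hV hy', ?_⟩
    have h2 : (zs a b v α).2.2 + tt a b (zs a b v α).1 y - τ = 0 := by
      rw [hτ]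
      show -tt a b (i0 α) (VV v α) + tt a b (i0 α) y - _ = 0
      ring
    rw [h2]
    show Orb (Tb a b v α) (VV v α + τ • es a b α) (es a b α) 0 y (dir a b (i0 α))
    rw [hes]
    have h3 := Orb.start (P := Tb a b v α) (x := VV v α + τ • es a b α) (e := es a b α) 0 le_rfl
      (fun s hs => by
        have hs0 : s = 0 := le_antisymm hs.2 hs.1
        rw [hs0, zero_smul, add_zero]
        exact hy')
    rw [zero_smul, add_zero, ← h1] at h3
    rw [← h1]
    exact h3
  | tail hz hst ih =>
    rename_i z1 z2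
    obtain ⟨hn1, ih⟩ := ih
    obtain ⟨j, hE, rfl⟩ := hst
    have hnr := norm_rs (α := α) (j := j) hn1 (norm_of_dt (dt_nS α j))
    refine ⟨hnr, fun y' hy' hu' => ?_⟩
    obtain ⟨w, hw1, hw2, hw3⟩ := exit_pt hOk hE
    have hwT : w ∈ Tb a b v α := by
      intro k
      by_cases hk : k = j
      · rw [hk, hw2]
      · exact (hw3 k hk).le
    have hSP := hS w j hw2 hw3
    set e := dir a b z1.1 with he
    have hGw : G (rs α j z1.1) w = G z1.1 w - (2 * oS a b v j) • G z1.1 (nS α j) := by
      rw [G_rs α j _ w (dt_nS α j)]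
      unfold rf
      rw [G_sub, G_smul, hw2]
    have huw : uu a b (rs α j z1.1) w = z1.2.1 - 2 * oS a b v j * cr (dd a b) (G z1.1 (nS α j)) := by
      unfold uu at hw1 ⊢
      rw [hGw, cr_sub_right, cr_smul_right, hw1]
    have htw : tt a b (rs α j z1.1) w = tt a b z1.1 w - 2 * oS a b v j * dt (dd a b) (G z1.1 (nS α j)) := by
      unfold tt
      rw [hGw, dt_sub_right, dt_smul_right]
    have h1 : y' = w + (tt a b (rs α j z1.1) y' - tt a b (rs α j z1.1) w) • dir a b (rs α j z1.1) :=
      on_chord hab hnr (hu'.trans huw.symm)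
    rw [dir_rs hn1] at h1
    set τ := tt a b (rs α j z1.1) y' - tt a b (rs α j z1.1) w with hτ
    have hne : dt (nS α j) e = dt (dd a b) (G z1.1 (nS α j)) := by
      rw [← dt_G hn1 (nS α j) e, he, G_dir hn1]
      unfold dt
      ring
    have hpos : 0 < dt (nS α j) e := by
      rw [hne]
      exact hE.1
    have hrf : dt (nS α j) (rf (nS α j) e) = - dt (nS α j) e := by
      unfold rf
      rw [dt_sub_right, dt_smul_right, dt_nS]
      ring
    have hτ0 : 0 < τ := by
      have h2 := (hI y').1 hy' j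
      rw [h1, dt_add_right, dt_smul_right, hw2, hrf] at h2
      have h4 : 0 < τ * dt (nS α j) e := by linarith
      by_contra hn
      have h5 : τ * dt (nS α j) e ≤ 0 := mul_nonpos_of_nonpos_of_nonneg (not_lt.1 hn) hpos.le
      linarith
    -- a point before the exit
    have hback : ∃ s : ℝ, 0 < s ∧ w - s • e ∈ interior (Tb a b v α) := by
      have h2 : ∀ k : Fin 5, ∀ᶠ s : ℝ in 𝓝[>] 0, dt (nS α k) (w - s • e) < oS a b v k := by
        intro k
        by_cases hk : k = j
        · filter_upwards [self_mem_nhdsWithin] with s hs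
          rw [hk, dt_sub_right, dt_smul_right, hw2]
          have h3 : 0 < s * dt (nS α j) e := mul_pos hs hpos
          linarith
        · have h3 : Tendsto (fun s : ℝ => dt (nS α k) (w - s • e)) (𝓝[>] 0) (𝓝 (dt (nS α k) w)) := by
            have h4 : (fun s : ℝ => dt (nS α k) (w - s • e)) =
                fun s : ℝ => dt (nS α k) w - s * dt (nS α k) e := by
              funext s
              rw [dt_sub_right, dt_smul_right]
            rw [h4]
            have h5 : Continuous fun s : ℝ => dt (nS α k) w - s * dt (nS α k) e := by fun_prop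
            have h6 := h5.tendsto 0
            simp only [zero_mul, sub_zero] at h6
            exact h6.mono_left nhdsWithin_le_nhds
          exact h3.eventually (gt_mem_nhds (hw3 k hk))
      have h7 : ∀ᶠ s : ℝ in 𝓝[>] 0, ∀ k : Fin 5, dt (nS α k) (w - s • e) < oS a b v k :=
        Filter.eventually_all.2 h2
      obtain ⟨s, hs1, hs2⟩ := (h7.and self_mem_nhdsWithin).exists
      exact ⟨s, hs2, (hI _).2 hs1⟩
    obtain ⟨s, hs0, hy⟩ := hback
    have huy : uu a b z1.1 (w - s • e) = z1.2.1 := by
      unfold uu at hw1 ⊢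
      rw [G_sub, G_smul, cr_sub_right, cr_smul_right, hw1, he, G_dir hn1, cr_self]
      ring
    have hty : tt a b z1.1 (w - s • e) = tt a b z1.1 w - s := by
      unfold tt
      rw [G_sub, G_smul, dt_sub_right, dt_smul_right, he, G_dir hn1, dt_dd hab]
      ring
    obtain ⟨s0, hs00, hs01, hO⟩ := ih (w - s • e) hy huy
    have hwe : w - s • e + s • e = w := by ring
    have hb1 : ∀ r ∈ Ico 0 s, w - s • e + r • e ∈ interior (Tb a b v α) := by
      intro r hr
      have h2 : w + s • (-e) ∈ interior (Tb a b v α) := by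
        rw [smul_neg, ← sub_eq_add_neg]
        exact hy
      have h3 := seg hI hs0 hwT h2 (s - r) ⟨by linarith [hr.2], by linarith [hr.1]⟩
      have h4 : w + (s - r) • (-e) = w - s • e + r • e := by
        rw [sub_smul, smul_neg, smul_neg]
        ring
      rwa [h4] at h3
    have hb2 : ∀ r ∈ Ioc 0 τ, w - s • e + s • e + r • rf (nS α j) e ∈ interior (Tb a b v α) := by
      rw [hwe]
      rw [h1] at hy'
      exact seg hI hτ0 hwT hy'
    have hSP' : SidePt (Tb a b v α) (w - s • e + s • e) (nS α j) := by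
      rw [hwe]
      exact hSP
    have hB := Orb.bounce (z1.2.2 + tt a b z1.1 (w - s • e) - s0) s τ (w - s • e) e (nS α j) hO hs0 hτ0 hb1
      hSP' hb2
    refine ⟨s0, hs00, hs01, ?_⟩
    rw [hwe, ← h1] at hB
    have htime : z1.2.2 + tt a b z1.1 (w - s • e) - s0 + s + τ =
        z1.2.2 + 2 * oS a b v j * dt (dd a b) (G z1.1 (nS α j)) + tt a b (rs α j z1.1) y' - s0 := by
      rw [hty, hτ, htw]
      ring
    rw [htime] at hB
    show Orb (Tb a b v α) _ _ (z1.2.2 + 2 * oS a b v j * dt (dd a b) (G z1.1 (nS α j)) +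
      tt a b (rs α j z1.1) y' - s0) y' (dir a b (rs α j z1.1))
    rw [dir_rs hn1]
    exact hB

end Pool.Agent.U57.BM.LN
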